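import Pool.Agent.helper94.EU.SpecII
set_option autoImplicit false
open Finset
namespace Pool.Agent.EU
open Pool.Agent.FI Pool.Agent.FJ

/-- the exponential sum over a block -/
noncomputable def SEP_F (x K b : ℕ) (f : ℤ → ℂ) (t : ℝ) : ℂ :=
  ∑ l ∈ bl x K b, f l * Complex.exp (2 * Real.pi * t * Real.log l * Complex.I)

/-- the kernel -/
noncomputable def SEP_w (ρ t : ℝ) : ℝ := (Real.sin (Real.pi * ρ * t) / (Real.pi * t)) ^ 2

theorem SEP_term (z : ℤ × ℤ) (l : ℤ) (hz : 0 < nn z) (fl : ℂ) (bz t : ℝ) :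
    fl * bz * ((1 / √(nn z) : ℝ) : ℂ) * Complex.exp (2 * Real.pi * t * uu z l * Complex.I) =
      (bz : ℂ) * (nn z : ℂ) ^ (-(1 / 2 : ℂ) + ((-(Real.pi * t) : ℝ) : ℂ) * Complex.I) *
        (fl * Complex.exp (2 * Real.pi * t * Real.log l * Complex.I)) := by
  have hnR : (0 : ℝ) < nn z := by exact_mod_cast hz
  have hnc : (nn z : ℂ) ≠ 0 := by exact_mod_cast hnR.ne'
  have h1 : ((1 / √(nn z) : ℝ) : ℂ) = Complex.exp (-(1 / 2 : ℂ) * ((Real.log (nn z) : ℝ) : ℂ)) := by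
    have h2 : (1 / √(nn z) : ℝ) = Real.exp (-(1 / 2) * Real.log (nn z)) := by
      rw [Real.sqrt_eq_rpow, one_div, ← Real.rpow_neg hnR.le, Real.rpow_def_of_pos hnR]
      congr 1
      ring
    rw [h2]
    push_cast
    rfl
  have h3 : (nn z : ℂ) ^ (-(1 / 2 : ℂ) + ((-(Real.pi * t) : ℝ) : ℂ) * Complex.I) =
      Complex.exp (((Real.log (nn z) : ℝ) : ℂ) *
        (-(1 / 2 : ℂ) + ((-(Real.pi * t) : ℝ) : ℂ) * Complex.I)) := by
    rw [Complex.cpow_def_of_ne_zero hnc, ← Complex.natCast_log]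
  rw [h1, h3]
  have h4 : fl * bz * Complex.exp (-(1 / 2 : ℂ) * ((Real.log (nn z) : ℝ) : ℂ)) *
      Complex.exp (2 * Real.pi * t * uu z l * Complex.I) = fl * bz *
        (Complex.exp (-(1 / 2 : ℂ) * ((Real.log (nn z) : ℝ) : ℂ)) *
          Complex.exp (2 * Real.pi * t * uu z l * Complex.I)) := by ring
  have h5 : (bz : ℂ) * Complex.exp (((Real.log (nn z) : ℝ) : ℂ) *
        (-(1 / 2 : ℂ) + ((-(Real.pi * t) : ℝ) : ℂ) * Complex.I)) *
        (fl * Complex.exp (2 * Real.pi * t * Real.log l * Complex.I)) = fl * bz *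
        (Complex.exp (((Real.log (nn z) : ℝ) : ℂ) *
        (-(1 / 2 : ℂ) + ((-(Real.pi * t) : ℝ) : ℂ) * Complex.I)) *
          Complex.exp (2 * Real.pi * t * Real.log l * Complex.I)) := by ring
  rw [h4, h5, ← Complex.exp_add, ← Complex.exp_add]
  congr 2
  unfold uu
  push_cast
  ring

theorem SEP_pos {N : ℕ} {z : ℤ × ℤ} (hz : z ∈ ZD N) : 0 < nn z := by
  unfold ZD at hz
  have h := (Finset.mem_filter.1 hz).2.1
  omega

/-- Plancherel for a fixed window -/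
theorem SEP_pls (hPLS : PLS_stmt) (x N K q : ℕ) (c : ℤ × ℤ) (sg : ℤ) (β : ℤ × ℤ → ℝ) (f : ℤ → ℂ)
    (b : ℕ) (h ρ y : ℝ) (hρ : 0 < ρ) :
    ∫ s : ℝ, ‖PPs x N K q c sg β f b h ρ y s‖ ^ 2 =
      ∫ t : ℝ, SEP_w ρ t * ‖SEP_F x K b f t‖ ^ 2 * ‖ZW N q c sg β y h (-(Real.pi * t))‖ ^ 2 := by
  classical
  obtain ⟨W, hW⟩ : ∃ W : Finset (ℤ × ℤ), W = (ZD N).filter (fun z => (q : ℤ) ∣ z.1 - c.1 ∧
    (q : ℤ) ∣ z.2 - c.2 ∧ (N8 z).sign = sg ∧ y < yy z ∧ yy z ≤ y + h) := ⟨_, rfl⟩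
  obtain ⟨_, hP⟩ := hPLS ((ℤ × ℤ) × ℤ) (W ×ˢ bl x K b)
    (fun i => f i.2 * β i.1 * ((1 / √(nn i.1) : ℝ) : ℂ)) (fun i => uu i.1 i.2) ρ hρ
  have e1 : ∀ s : ℝ, PPs x N K q c sg β f b h ρ y s = ∑ i ∈ W ×ˢ bl x K b,
      f i.2 * β i.1 * ((1 / √(nn i.1) : ℝ) : ℂ) * (if s < uu i.1 i.2 ∧ uu i.1 i.2 ≤ s + ρ then 1 else 0) := by
    intro s
    rw [Finset.sum_product]
    unfold PPs
    refine Finset.sum_congr ?_ fun z _ => rfl
    rw [hW]
  have e2 : ∀ t : ℝ, ∑ i ∈ W ×ˢ bl x K b, f i.2 * β i.1 * ((1 / √(nn i.1) : ℝ) : ℂ) *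
      Complex.exp (2 * Real.pi * t * uu i.1 i.2 * Complex.I) =
      ZW N q c sg β y h (-(Real.pi * t)) * SEP_F x K b f t := by
    intro t
    have e3 : ZW N q c sg β y h (-(Real.pi * t)) = ∑ z ∈ W,
        (β z : ℂ) * (nn z : ℂ) ^ (-(1 / 2 : ℂ) + ((-(Real.pi * t) : ℝ) : ℂ) * Complex.I) := by
      unfold ZW
      refine Finset.sum_congr ?_ fun z _ => rfl
      rw [hW]
    rw [e3, Finset.sum_product]
    unfold SEP_F
    rw [Finset.sum_mul_sum]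
    refine Finset.sum_congr rfl fun z hz => Finset.sum_congr rfl fun l _ => ?_
    refine SEP_term z l ?_ (f l) (β z) t
    rw [hW] at hz
    exact SEP_pos (Finset.mem_filter.1 hz).1
  rw [show (fun s : ℝ => ‖PPs x N K q c sg β f b h ρ y s‖ ^ 2) = fun s : ℝ => ‖∑ i ∈ W ×ˢ bl x K b,
      f i.2 * β i.1 * ((1 / √(nn i.1) : ℝ) : ℂ) *
        (if s < uu i.1 i.2 ∧ uu i.1 i.2 ≤ s + ρ then 1 else 0)‖ ^ 2 from
      funext fun s => by rw [e1 s], hP]
  congr 1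
  funext t
  rw [e2 t, norm_mul]
  unfold SEP_w
  ring

theorem SEP_Fcont (x K b : ℕ) (f : ℤ → ℂ) : Continuous (SEP_F x K b f) := by
  unfold SEP_F
  fun_prop

theorem SEP_wmeas (ρ : ℝ) : Measurable (SEP_w ρ) := by
  unfold SEP_w
  fun_prop

/-- the integrand is measurable -/
theorem SEP_meas (x N K q : ℕ) (c : ℤ × ℤ) (sg : ℤ) (β : ℤ × ℤ → ℝ) (f : ℤ → ℂ) (b : ℕ) (h ρ : ℝ) :
    Measurable (fun p : ℝ × ℝ => SEP_w ρ p.2 * ‖SEP_F x K b f p.2‖ ^ 2 *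
      ‖ZW N q c sg β p.1 h (-(Real.pi * p.2))‖ ^ 2) := by
  classical
  have h1 : Measurable (fun p : ℝ × ℝ => ZW N q c sg β p.1 h (-(Real.pi * p.2))) := by
    have h2 : (fun p : ℝ × ℝ => ZW N q c sg β p.1 h (-(Real.pi * p.2))) = fun p : ℝ × ℝ =>
        ∑ z ∈ ZD N, if (((q : ℤ) ∣ z.1 - c.1 ∧ (q : ℤ) ∣ z.2 - c.2 ∧ (N8 z).sign = sg) ∧
          (p.1 < yy z ∧ yy z ≤ p.1 + h)) then
          (β z : ℂ) * (nn z : ℂ) ^ (-(1 / 2 : ℂ) + ((-(Real.pi * p.2) : ℝ) : ℂ) * Complex.I) else 0 := by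
      funext p
      unfold ZW
      rw [← Finset.sum_filter]
      refine Finset.sum_congr ?_ fun z _ => rfl
      ext z
      simp only [Finset.mem_filter]
      tauto
    rw [h2]
    refine Finset.measurable_sum _ fun z _ => ?_
    refine Measurable.ite ?_ ?_ measurable_const
    · refine MeasurableSet.inter (MeasurableSet.const _) ?_
      exact (measurableSet_lt measurable_fst measurable_const).inter
        (measurableSet_le measurable_const (measurable_fst.add measurable_const))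
    · refine measurable_const.mul (measurable_const.pow ?_)
      fun_prop
  have h3 : Measurable (fun p : ℝ × ℝ => SEP_w ρ p.2) := (SEP_wmeas ρ).comp measurable_snd
  have h4 : Measurable (fun p : ℝ × ℝ => SEP_F x K b f p.2) :=
    (SEP_Fcont x K b f).measurable.comp measurable_snd
  exact (h3.mul (h4.norm.pow_const 2)).mul (h1.norm.pow_const 2)

/-- `1 / t²` times the square of a bounded continuous function is integrable for `|t| > T₁` -/
theorem SEP_tail (F : ℝ → ℂ) (hF : Continuous F) (B T₁ : ℝ) (hB : ∀ t, ‖F t‖ ≤ B) (hT : 1 ≤ T₁) :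
    MeasureTheory.IntegrableOn (fun t : ℝ => 1 / t ^ 2 * ‖F t‖ ^ 2) {t : ℝ | T₁ < |t|} := by
  have h1 : MeasureTheory.Integrable (fun t : ℝ => 2 * B ^ 2 * (1 + t ^ 2)⁻¹) :=
    integrable_inv_one_add_sq.const_mul _
  have hms : MeasurableSet {t : ℝ | T₁ < |t|} := measurableSet_lt measurable_const measurable_id.abs
  refine MeasureTheory.Integrable.mono' h1.integrableOn ?_ ?_
  · have h2 : Measurable (fun t : ℝ => 1 / t ^ 2 * ‖F t‖ ^ 2) := by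
      have h3 : Measurable F := hF.measurable
      exact (measurable_const.div (measurable_id.pow_const 2)).mul (h3.norm.pow_const 2)
    exact h2.aestronglyMeasurable
  · rw [MeasureTheory.ae_restrict_iff' hms]
    refine Filter.Eventually.of_forall fun t ht => ?_
    have ht1 : 1 < |t| := lt_of_le_of_lt hT ht
    have ht2 : 1 < t ^ 2 := by
      rw [← sq_abs]
      nlinarith
    have h4 : 1 / t ^ 2 ≤ 2 * (1 + t ^ 2)⁻¹ := by
      rw [← div_eq_mul_inv, div_le_div_iff₀ (by linarith) (by linarith)]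
      linarith
    have h5 : ‖F t‖ ^ 2 ≤ B ^ 2 := pow_le_pow_left₀ (norm_nonneg _) (hB t) 2
    rw [Real.norm_eq_abs, abs_of_nonneg (by positivity)]
    calc 1 / t ^ 2 * ‖F t‖ ^ 2 ≤ (2 * (1 + t ^ 2)⁻¹) * B ^ 2 :=
          mul_le_mul h4 h5 (by positivity) (by positivity)
      _ = _ := by ring

theorem SEP_Fb (x K b : ℕ) (f : ℤ → ℂ) (M : ℝ) (hf : ∀ l, ‖f l‖ ≤ M) (t : ℝ) :
    ‖SEP_F x K b f t‖ ≤ (bl x K b).card * M := by
  unfold SEP_F
  refine (norm_sum_le _ _).trans ?_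
  rw [← nsmul_eq_mul]
  refine Finset.sum_le_card_nsmul _ _ _ fun l _ => ?_
  rw [norm_mul]
  have h1 : ‖Complex.exp (2 * Real.pi * t * Real.log l * Complex.I)‖ = 1 := by
    have h2 : (2 * Real.pi * t * Real.log l * Complex.I : ℂ) =
        ((2 * Real.pi * t * Real.log l : ℝ) : ℂ) * Complex.I := by
      push_cast
      ring
    rw [h2, Complex.norm_exp_ofReal_mul_I]
  rw [h1, mul_one]
  exact hf l

theorem SEP (hPLS : PLS_stmt) (hQQL : QQL_stmt) (hTLM : TLM_stmt) (hGTR : GTR_stmt) : SEP_stmt := by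
  obtain ⟨C₁, hC₁, hT⟩ := hTLM
  obtain ⟨C₂, hC₂, hG⟩ := hGTR
  refine ⟨18 + 16 * (C₁ * C₂), by positivity, ?_⟩
  intro x N A K E q T M Mβ β f hx hN hA hAx hK hT4 hxK hf hβ hY hKE hq hqE c sg b
  have hxR : (1 : ℝ) ≤ x := by exact_mod_cast hx
  have hNR : (1 : ℝ) ≤ N := by exact_mod_cast hN
  have hAR : (1 : ℝ) ≤ A := by exact_mod_cast hA
  have hKR : (1 : ℝ) ≤ K := by exact_mod_cast hK
  have hAxR : (A : ℝ) ≤ x := by exact_mod_cast hAx
  have hxKR : (x : ℝ) * K ≤ (A : ℝ) ^ 2 := by exact_mod_cast hxK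
  have hM0 : 0 ≤ M := (norm_nonneg _).trans (hf 0)
  obtain ⟨h, hh_def⟩ : ∃ h : ℝ, h = hh x A K := ⟨_, rfl⟩
  obtain ⟨ρ, hρ_def⟩ : ∃ ρ : ℝ, ρ = rr x A K := ⟨_, rfl⟩
  rw [← hh_def, ← hρ_def]
  have hh0 : 0 < h := by
    rw [hh_def]
    unfold hh
    positivity
  have hρ0 : 0 < ρ := by
    rw [hρ_def]
    unfold rr
    positivity
  have hρ1 : ρ ≤ 1 := by
    rw [hρ_def]
    unfold rr
    rw [div_le_one (by positivity)]
    have h1 : (A : ℝ) ^ 2 ≤ (x : ℝ) ^ 2 := pow_le_pow_left₀ (by linarith) hAxR 2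
    nlinarith
  have hxρ : 1 ≤ x * ρ := by
    rw [hρ_def]
    unfold rr
    have h1 : (x : ℝ) * ((A : ℝ) ^ 2 / (x ^ 2 * K)) = (A : ℝ) ^ 2 / (x * K) := by
      field_simp
    rw [h1, one_le_div (by positivity)]
    exact hxKR
  have hh1 : A / (x * Real.log x ^ E) ≤ h := by
    rw [hh_def]
    unfold hh
    exact div_le_div_of_nonneg_left (by linarith) (by positivity)
      (mul_le_mul_of_nonneg_left hKE (by linarith))
  have hh2 : h ≤ A / x := by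
    rw [hh_def]
    unfold hh
    exact div_le_div_of_nonneg_left (by linarith) (by linarith) (by nlinarith)
  have hL0 : 0 ≤ Real.log x := Real.log_nonneg hxR
  -- the three bounds
  obtain ⟨Y, hYd⟩ : ∃ Y : ℝ, Y = N * h ^ 2 / Real.log x ^ E := ⟨_, rfl⟩
  obtain ⟨Z, hZd⟩ : ∃ Z : ℝ, Z = C₂ * (Mβ ^ 2 * (h * (N * h + √N))) := ⟨_, rfl⟩
  have hY0 : 0 ≤ Y := by rw [hYd]; positivity
  have hZ0 : 0 ≤ Z := by rw [hZd]; positivity
  obtain ⟨T₁, hT₁⟩ : ∃ T₁ : ℝ, T₁ = T / Real.pi := ⟨_, rfl⟩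
  have hpi := Real.pi_pos
  have hpi4 := Real.pi_lt_four
  have hpi3 := Real.pi_gt_three
  have hT₁1 : 1 ≤ T₁ := by
    rw [hT₁, one_le_div hpi]
    linarith
  have hJ1 : ∀ t : ℝ, |t| ≤ T₁ →
      ∫ y : ℝ, ‖ZW N q c sg β y h (-(Real.pi * t))‖ ^ 2 ≤ Y := by
    intro t ht
    rw [hYd]
    refine hY q hq hqE c sg h hh1 hh2 (-(Real.pi * t)) ?_
    rw [abs_neg, abs_mul, abs_of_pos hpi]
    rw [hT₁, le_div_iff₀ hpi] at ht
    linarith
  have hJ2 : ∀ t : ℝ, MeasureTheory.Integrable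
      (fun y : ℝ => ‖ZW N q c sg β y h (-(Real.pi * t))‖ ^ 2) ∧
      ∫ y : ℝ, ‖ZW N q c sg β y h (-(Real.pi * t))‖ ^ 2 ≤ Z := by
    intro t
    rw [hZd]
    exact hG N q c sg β Mβ h (-(Real.pi * t)) hN hβ hh0
  -- the weight
  obtain ⟨g, hg⟩ : ∃ g : ℝ → ℝ, g = fun t => SEP_w ρ t * ‖SEP_F x K b f t‖ ^ 2 := ⟨_, rfl⟩
  have hg0 : ∀ t, 0 ≤ g t := fun t => by
    rw [hg]
    exact mul_nonneg (sq_nonneg _) (sq_nonneg _)
  have hblx : bl x K b ⊆ Ioc (x : ℤ) (2 * x) := by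
    unfold bl
    exact Finset.filter_subset _ _
  obtain ⟨hgi, hgv⟩ : MeasureTheory.Integrable g ∧ ∫ t : ℝ, g t ≤ M ^ 2 * (2 * x * ρ + 1) ^ 2 * (1 + ρ) := by
    obtain ⟨a1, a2⟩ := hPLS ℤ (bl x K b) f (fun l => Real.log l) ρ hρ0
    have a3 := hQQL x (bl x K b) f M ρ hx hblx hf hρ0
    rw [a2] at a3
    rw [hg]
    exact ⟨a1, a3⟩
  -- the function on the product
  obtain ⟨H, hH⟩ : ∃ H : ℝ × ℝ → ℝ, H = fun p : ℝ × ℝ => SEP_w ρ p.2 * ‖SEP_F x K b f p.2‖ ^ 2 *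
      ‖ZW N q c sg β p.1 h (-(Real.pi * p.2))‖ ^ 2 := ⟨_, rfl⟩
  have hHm : Measurable H := by rw [hH]; exact SEP_meas x N K q c sg β f b h ρ
  have hH0 : ∀ p, 0 ≤ H p := fun p => by
    rw [hH]
    exact mul_nonneg (mul_nonneg (sq_nonneg _) (sq_nonneg _)) (sq_nonneg _)
  have hHy : ∀ t : ℝ, ∫ y : ℝ, H (y, t) = g t * ∫ y : ℝ, ‖ZW N q c sg β y h (-(Real.pi * t))‖ ^ 2 := by
    intro t
    rw [hH, hg]
    exact MeasureTheory.integral_const_mul (SEP_w ρ t * ‖SEP_F x K b f t‖ ^ 2)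
      (fun y : ℝ => ‖ZW N q c sg β y h (-(Real.pi * t))‖ ^ 2)
  have hHyi : ∀ t : ℝ, MeasureTheory.Integrable (fun y : ℝ => H (y, t)) := by
    intro t
    rw [hH]
    exact (hJ2 t).1.const_mul (SEP_w ρ t * ‖SEP_F x K b f t‖ ^ 2)
  have hJ0 : ∀ t : ℝ, 0 ≤ ∫ y : ℝ, ‖ZW N q c sg β y h (-(Real.pi * t))‖ ^ 2 := fun t =>
    MeasureTheory.integral_nonneg fun y => sq_nonneg _
  have hmeasJ : MeasureTheory.AEStronglyMeasurable (fun t : ℝ => ∫ y : ℝ, H (y, t)) := by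
    have h1 : MeasureTheory.StronglyMeasurable H := hHm.stronglyMeasurable
    exact (h1.integral_prod_left').aestronglyMeasurable
  have hIt : MeasureTheory.Integrable (fun t : ℝ => ∫ y : ℝ, H (y, t)) := by
    refine MeasureTheory.Integrable.mono' (hgi.mul_const Z) hmeasJ (Filter.Eventually.of_forall fun t => ?_)
    rw [hHy t, Real.norm_eq_abs, abs_of_nonneg (mul_nonneg (hg0 t) (hJ0 t))]
    exact mul_le_mul_of_nonneg_left (hJ2 t).2 (hg0 t)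
  have hHi : MeasureTheory.Integrable H (MeasureTheory.volume.prod MeasureTheory.volume) := by
    rw [MeasureTheory.integrable_prod_iff' hHm.aestronglyMeasurable]
    refine ⟨Filter.Eventually.of_forall fun t => hHyi t, ?_⟩
    have h1 : (fun t : ℝ => ∫ y : ℝ, ‖H (y, t)‖) = fun t : ℝ => ∫ y : ℝ, H (y, t) := by
      funext t
      congr 1
      funext y
      rw [Real.norm_eq_abs, abs_of_nonneg (hH0 _)]
    rw [h1]
    exact hIt
  have hΦ : (fun y : ℝ => ∫ s : ℝ, ‖PPs x N K q c sg β f b h ρ y s‖ ^ 2) =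
      fun y : ℝ => ∫ t : ℝ, H (y, t) := by
    funext y
    rw [SEP_pls hPLS x N K q c sg β f b h ρ y hρ0, hH]
  rw [hΦ]
  refine ⟨hHi.integral_prod_left, ?_⟩
  have hswap : ∫ y : ℝ, ∫ t : ℝ, H (y, t) = ∫ t : ℝ, ∫ y : ℝ, H (y, t) :=
    MeasureTheory.integral_integral_swap (f := fun y t => H (y, t)) hHi
  rw [hswap]
  -- the tail
  have htl := hT x (bl x K b) f M T₁ hx hblx hf hT₁1
  have hti := SEP_tail (SEP_F x K b f) (SEP_Fcont x K b f) ((bl x K b).card * M) T₁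
    (SEP_Fb x K b f M hf) hT₁1
  have hms : MeasurableSet {t : ℝ | T₁ < |t|} := measurableSet_lt measurable_const measurable_id.abs
  obtain ⟨G, hGd⟩ : ∃ G : ℝ → ℝ, G = fun t => 1 / t ^ 2 * ‖SEP_F x K b f t‖ ^ 2 := ⟨_, rfl⟩
  have hti' : MeasureTheory.IntegrableOn G {t : ℝ | T₁ < |t|} := by rw [hGd]; exact hti
  have htl' : ∫ t in {t : ℝ | T₁ < |t|}, G t ≤ C₁ * (M ^ 2 * (x / T₁ + 1) ^ 2) := by
    rw [hGd]
    exact htl
  have hpt : ∀ t : ℝ, ∫ y : ℝ, H (y, t) ≤ Y * g t + Z * Set.indicator {t : ℝ | T₁ < |t|} G t := by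
    intro t
    rw [hHy t]
    by_cases ht : |t| ≤ T₁
    · have h1 : Set.indicator {t : ℝ | T₁ < |t|} G t = 0 :=
        Set.indicator_of_notMem (s := {t : ℝ | T₁ < |t|}) (not_lt.2 ht) G
      rw [h1, mul_zero, add_zero, mul_comm Y]
      exact mul_le_mul_of_nonneg_left (hJ1 t ht) (hg0 t)
    · rw [not_le] at ht
      have h1 : Set.indicator {t : ℝ | T₁ < |t|} G t = G t := Set.indicator_of_mem (s := {t : ℝ | T₁ < |t|}) ht G
      rw [h1]
      have ht2 : 0 < t ^ 2 := by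
        rw [← sq_abs]
        have : 0 < |t| := by linarith
        positivity
      have h2 : g t ≤ G t := by
        rw [hg, hGd]
        apply mul_le_mul_of_nonneg_right _ (sq_nonneg _)
        unfold SEP_w
        rw [div_pow, mul_pow]
        have h3 : Real.sin (Real.pi * ρ * t) ^ 2 ≤ 1 := Real.sin_sq_le_one _
        rw [div_le_div_iff₀ (by positivity) ht2]
        have h4 : 1 ≤ Real.pi ^ 2 := by nlinarith
        nlinarith
      calc g t * ∫ y : ℝ, ‖ZW N q c sg β y h (-(Real.pi * t))‖ ^ 2 ≤ g t * Z :=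
            mul_le_mul_of_nonneg_left (hJ2 t).2 (hg0 t)
        _ ≤ G t * Z := mul_le_mul_of_nonneg_right h2 hZ0
        _ ≤ Y * g t + Z * G t := by
            have := mul_nonneg hY0 (hg0 t)
            linarith
  have hind : MeasureTheory.Integrable (Set.indicator {t : ℝ | T₁ < |t|} G) :=
    (MeasureTheory.integrable_indicator_iff hms).2 hti'
  have hle : ∫ t : ℝ, ∫ y : ℝ, H (y, t) ≤
      ∫ t : ℝ, (Y * g t + Z * Set.indicator {t : ℝ | T₁ < |t|} G t) :=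
    MeasureTheory.integral_mono hIt ((hgi.const_mul Y).add (hind.const_mul Z)) hpt
  rw [MeasureTheory.integral_add (hgi.const_mul Y) (hind.const_mul Z),
    MeasureTheory.integral_const_mul, MeasureTheory.integral_const_mul,
    MeasureTheory.integral_indicator hms] at hle
  -- numbers
  have hn1 : M ^ 2 * (2 * x * ρ + 1) ^ 2 * (1 + ρ) ≤ 18 * (M ^ 2 * (x * ρ) ^ 2) := by
    have h1 : (2 * x * ρ + 1) ^ 2 ≤ (3 * (x * ρ)) ^ 2 :=
      pow_le_pow_left₀ (by positivity) (by linarith) 2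
    calc M ^ 2 * (2 * x * ρ + 1) ^ 2 * (1 + ρ) ≤ M ^ 2 * (3 * (x * ρ)) ^ 2 * 2 := by
          apply mul_le_mul _ (by linarith) (by linarith) (by positivity)
          exact mul_le_mul_of_nonneg_left h1 (sq_nonneg _)
      _ = _ := by ring
  have hn2 : (x / T₁ + 1) ^ 2 ≤ 16 * (x / T + 1) ^ 2 := by
    have h1 : (x : ℝ) / T₁ + 1 ≤ 4 * (x / T + 1) := by
      have h2 : (x : ℝ) / T₁ = Real.pi * (x / T) := by
        rw [hT₁]
        field_simp
      rw [h2]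
      have h3 : 0 ≤ (x : ℝ) / T := by positivity
      nlinarith
    calc (x / T₁ + 1) ^ 2 ≤ (4 * (x / T + 1)) ^ 2 := by
          apply pow_le_pow_left₀ _ h1 2
          have h3 : 0 ≤ (x : ℝ) / T₁ := by positivity
          linarith
      _ = _ := by ring
  have hb1 : Y * ∫ t : ℝ, g t ≤ Y * (18 * (M ^ 2 * (x * ρ) ^ 2)) :=
    mul_le_mul_of_nonneg_left (hgv.trans hn1) hY0
  have hb2 : Z * ∫ t in {t : ℝ | T₁ < |t|}, G t ≤ Z * (C₁ * (M ^ 2 * (16 * (x / T + 1) ^ 2))) := by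
    apply mul_le_mul_of_nonneg_left (htl'.trans _) hZ0
    apply mul_le_mul_of_nonneg_left _ hC₁.le
    exact mul_le_mul_of_nonneg_left hn2 (sq_nonneg _)
  refine hle.trans ((add_le_add hb1 hb2).trans ?_)
  have hP1 : 0 ≤ M ^ 2 * (Y * (x * ρ) ^ 2) := by positivity
  have hP2 : 0 ≤ M ^ 2 * (Mβ ^ 2 * (h * (N * h + √N) * (x / T + 1) ^ 2)) := by positivity
  have e1 : Y * (18 * (M ^ 2 * (x * ρ) ^ 2)) = 18 * (M ^ 2 * (Y * (x * ρ) ^ 2)) := by ring
  have e2 : Z * (C₁ * (M ^ 2 * (16 * (x / T + 1) ^ 2))) =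
      16 * (C₁ * C₂) * (M ^ 2 * (Mβ ^ 2 * (h * (N * h + √N) * (x / T + 1) ^ 2))) := by
    rw [hZd]
    ring
  have e3 : (18 + 16 * (C₁ * C₂)) * M ^ 2 * (N * h ^ 2 * (x * ρ) ^ 2 / Real.log x ^ E +
      Mβ ^ 2 * (h * (N * h + √N) * (x / T + 1) ^ 2)) =
      (18 + 16 * (C₁ * C₂)) * (M ^ 2 * (Y * (x * ρ) ^ 2)) +
      (18 + 16 * (C₁ * C₂)) * (M ^ 2 * (Mβ ^ 2 * (h * (N * h + √N) * (x / T + 1) ^ 2))) := by
    rw [hYd]
    ring
  rw [e1, e2, e3]
  have hCC : 0 < C₁ * C₂ := by positivity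
  have f1 := mul_nonneg hCC.le hP1
  linarith

end Pool.Agent.EU
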